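import Mathlib

/-!
Project RP (row pooling programs): definitions and the statements of the parts.

Programs over `ℂ` for an `n × n` matrix whose only operations across the rows are sums over all
`k`-tuples of rows and products over all rows.
-/

namespace Pool.Agent.W941.RP

open MvPolynomial

set_option autoImplicit false

/-- Row pooling programs, as the list of the pooled polynomials (the first one first). A step
appends the sum over all `k`-tuples of rows, or the product over all rows, of an arbitrary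
polynomial `q` in the entries of these rows and in the polynomials pooled before. -/
inductive Pooled (n k : ℕ) : List (MvPolynomial (Fin n × Fin n) ℂ) → Prop
  | nil : Pooled n k []
  | sum (l : List (MvPolynomial (Fin n × Fin n) ℂ)) (q : MvPolynomial ((Fin k × Fin n) ⊕ ℕ) ℂ) :
      Pooled n k l →
      Pooled n k (l ++ [∑ i : Fin k → Fin n,
        aeval (Sum.elim (fun p => X (i p.1, p.2)) fun t => l.getD t 0) q])
  | prod (l : List (MvPolynomial (Fin n × Fin n) ℂ)) (q : MvPolynomial (Fin n ⊕ ℕ) ℂ) :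
      Pooled n k l →
      Pooled n k (l ++ [∏ i : Fin n,
        aeval (Sum.elim (fun j => X (i, j)) fun t => l.getD t 0) q])

/-- the polynomial `Q` is pooled in one step from the values `prev` -/
def Gate (n k : ℕ) (prev : ℕ → MvPolynomial (Fin n × Fin n) ℂ)
    (Q : MvPolynomial (Fin n × Fin n) ℂ) : Prop :=
  (∃ q : MvPolynomial ((Fin k × Fin n) ⊕ ℕ) ℂ, Q = ∑ i : Fin k → Fin n,
        aeval (Sum.elim (fun p => X (i p.1, p.2)) prev) q) ∨
  (∃ q : MvPolynomial (Fin n ⊕ ℕ) ℂ, Q = ∏ i : Fin n,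
        aeval (Sum.elim (fun j => X (i, j)) prev) q)

/-- the generic permanent -/
noncomputable def perm (n : ℕ) : MvPolynomial (Fin n × Fin n) ℂ :=
  Matrix.permanent (Matrix.of fun i j => X (i, j))

/-- `F` depends only on the coordinates in `S`. -/
def Dep {ι N : Type} (S : Finset ι) (F : (ι → N) → ℂ) : Prop :=
  ∀ x y : ι → N, (∀ j ∈ S, x j = y j) → F x = F y

/-- the monomial `∏_{j ∈ S} X_j ^ m` -/
noncomputable def mon {d : ℕ} (m : ℕ) (S : Finset (Fin d)) : Fin d →₀ ℕ :=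
  ∑ j ∈ S, Finsupp.single j m

/-- the polynomials all whose exponents are multiples of `m` -/
def Div {d : ℕ} (m : ℕ) (p : MvPolynomial (Fin d) ℂ) : Prop :=
  ∀ a, coeff a p ≠ 0 → ∀ j, m ∣ a j

/-- the polynomials in the variables `X_j`, `j ∈ S` -/
def Var {d : ℕ} (S : Finset (Fin d)) (p : MvPolynomial (Fin d) ℂ) : Prop :=
  ∀ a, coeff a p ≠ 0 → a.support ⊆ S

/-- The test matrix. Rows and columns are `Fin n ≃ (Fin (k + 1) × Fin m) ⊕ Fin r`: block `j` has
the `m` rows `ω ^ l * X j * 1_{A_j}`, where `A_j` contains the column `j + x j g` of the group `g`;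
the other rows are unit rows. -/
noncomputable def tm {k m r n : ℕ} (e : Fin n ≃ (Fin (k + 1) × Fin m) ⊕ Fin r) (ω : ℂ)
    (x : Fin (k + 1) → (Fin m → Bool)) (i c : Fin n) : MvPolynomial (Fin (k + 1)) ℂ :=
  match e i, e c with
  | .inl (j, l), .inl (a, g) => if a = j + (if x j g then 1 else 0) then C (ω ^ (l : ℕ)) * X j else 0
  | .inr b, .inr b' => if b = b' then 1 else 0
  | _, _ => 0

/-- functions which split nontrivially into two factors on disjoint sets of coordinates -/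
def Gen {d : ℕ} {N : Type} (s : ℕ) (c : ℕ → Finset (Fin d) → (Fin d → N) → ℂ)
    (R : ℕ → (Fin d → N) → ℂ) : Submodule ℂ ((Fin d → N) → ℂ) :=
  Submodule.span ℂ ({F | ∃ t < s, ∃ S : Finset (Fin d), S.Nonempty ∧ S ≠ Finset.univ ∧
      ∃ H, Dep Sᶜ H ∧ F = fun x => c t S x * H x} ∪ {F | ∃ t < s, F = R t})

/-! ### the parts -/

/-- PR: a diagonal tensor of size `N` is not a sum of fewer than `N` split functions -/
def PRStmt : Prop := ∀ (d : ℕ) (N κ : Type) [Fintype N] [Fintype κ]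
   (f : (Fin (d + 1) → N) → ℂ) (S : κ → Finset (Fin (d + 1))) (F G : κ → (Fin (d + 1) → N) → ℂ),
   (∀ x, f x ≠ 0 ↔ ∀ i j, x i = x j) → (∀ i, S i ≠ ∅) → (∀ i, S i ≠ Finset.univ) →
   (∀ i, Dep (S i) (F i)) → (∀ i, Dep (S i)ᶜ (G i)) →
   (∀ x, f x = ∑ i, F i x * G i x) → Fintype.card N ≤ Fintype.card κ

/-- DIAG: the coefficient of the permanent of the test matrix -/
def DiagStmt : Prop := ∀ (k m r n : ℕ) (e : Fin n ≃ (Fin (k + 1) × Fin m) ⊕ Fin r) (ω : ℂ),
    1 ≤ k → ω ≠ 0 → ∀ x : Fin (k + 1) → (Fin m → Bool),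
      coeff (mon m Finset.univ) (aeval (fun p => tm e ω x p.1 p.2) (perm n)) ≠ 0 ↔
        ∀ i j, x i = x j

/-- CONV: coefficients of products -/
def ConvStmt : Prop := ∀ (d m : ℕ), 0 < m → ∀ (p q : MvPolynomial (Fin d) ℂ) (S : Finset (Fin d)),
    Div m p → coeff (mon m S) (p * q) = ∑ T ∈ S.powerset, coeff (mon m T) p * coeff (mon m (S \ T)) q

/-- SPLIT: products in disjoint sets of variables -/
def SplitStmt : Prop := ∀ (d m : ℕ), 0 < m → ∀ (p q : MvPolynomial (Fin d) ℂ) (S : Finset (Fin d)),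
    Var S p → Var Sᶜ q → coeff (mon m Finset.univ) (p * q) = coeff (mon m S) p * coeff (mon m Sᶜ) q

/-- INV: the values of row-symmetric polynomials at the test matrices have exponents divisible by
`m` -/
def InvStmt : Prop := ∀ (k m r n : ℕ) (e : Fin n ≃ (Fin (k + 1) × Fin m) ⊕ Fin r) (ω : ℂ),
    0 < m → IsPrimitiveRoot ω m → ∀ (x : Fin (k + 1) → (Fin m → Bool))
      (f : MvPolynomial (Fin n × Fin n) ℂ),
      (∀ π : Equiv.Perm (Fin n), rename (fun p => (π p.1, p.2)) f = f) →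
      Div m (aeval (fun p => tm e ω x p.1 p.2) f)

/-- SYM: programs as sequences of gates with row-symmetric values -/
def SymStmt : Prop := ∀ (n k : ℕ) (l : List (MvPolynomial (Fin n × Fin n) ℂ)), Pooled n k l →
    (∀ t < l.length, Gate n k (fun t' => if t' < t then l.getD t' 0 else 0) (l.getD t 0)) ∧
    (∀ t, ∀ π : Equiv.Perm (Fin n), rename (fun p => (π p.1, p.2)) (l.getD t 0) = l.getD t 0)

/-- EXTR: the number of split functions -/
def ExtrStmt : Prop := ∀ (d : ℕ) (N : Type) (s : ℕ)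
    (c : ℕ → Finset (Fin (d + 2)) → (Fin (d + 2) → N) → ℂ) (R : ℕ → (Fin (d + 2) → N) → ℂ)
    (f : (Fin (d + 2) → N) → ℂ),
    (∀ t S, Dep S (c t S)) → (∀ t < s, ∃ F G, Dep {0} F ∧ Dep {0}ᶜ G ∧ R t = fun x => F x * G x) →
    f ∈ Gen s c R →
    ∃ (κ : Type) (_ : Fintype κ) (S : κ → Finset (Fin (d + 2))) (F G : κ → (Fin (d + 2) → N) → ℂ),
      Fintype.card κ = (2 ^ (d + 2) - 1) * s ∧ (∀ i, S i ≠ ∅) ∧ (∀ i, S i ≠ Finset.univ) ∧
      (∀ i, Dep (S i) (F i)) ∧ (∀ i, Dep (S i)ᶜ (G i)) ∧ ∀ x, f x = ∑ i, F i x * G i x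

/-- LOC: locality of the values at the test matrices, with parameters `z` -/
def LocStmt : Prop := ∀ (k m r n : ℕ) (e : Fin n ≃ (Fin (k + 1) × Fin m) ⊕ Fin r) (ω : ℂ),
    0 < m → ∀ (σ : Type) (f : MvPolynomial ((Fin n × Fin n) ⊕ σ) ℂ) (a : σ →₀ ℕ)
      (S : Finset (Fin (k + 1))),
      Dep S (fun x : Fin (k + 1) → (Fin m → Bool) => coeff (mon m S) (coeff a
        (aeval (Sum.elim (fun p => (C (tm e ω x p.1 p.2) : MvPolynomial σ (MvPolynomial (Fin (k + 1)) ℂ)))
          X) f)))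

end Pool.Agent.W941.RP
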